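import Pool.Agent.W492.BB.Defs
import Pool.Agent.U926.HC.FormDefs

/-!
# The standard conjecture of Hodge type and polarised decompositions: definitions
-/

set_option autoImplicit false

open CategoryTheory AlgebraicGeometry MvPolynomial

universe u v w

namespace Pool.Agent.U926.HS

open Pool.Agent.H914 Pool.Agent.H914.VarClass Pool.Agent.H914.VarClass.Obj Pool.Agent.W492.BB
  Pool.Agent.U926.HC

section corr

variable {k : Type u} [Field k] {𝒱 : VarClass k} (C : TheoryData.{u, v, 0} 𝒱 ℚ) {X Y Z : 𝒱.Obj}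

/-- The class of the diagonal of `X`. -/
noncomputable def diag (X : 𝒱.Obj) : C.A (X.prod X) := C.down (Obj.lift (𝟙 X) (𝟙 X)) 1

/-- The external product `a × b`. -/
noncomputable def ext (a : C.A X) (b : C.A Y) : C.A (X.prod Y) :=
  C.mul (C.up (fst X Y) a) (C.up (snd X Y) b)

/-- The composition `Δ ∘ Γ` of correspondences. -/
noncomputable def comp (Γ : C.A (X.prod Y)) (Δ : C.A (Y.prod Z)) : C.A (X.prod Z) :=
  C.down (prodMap (fst X Y) (𝟙 Z))
    (C.mul (C.up (prodMap (snd X Y) (𝟙 Z)) Δ) (C.up (fst (X.prod Y) Z) Γ))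

/-- The transpose `Γ^t`. -/
noncomputable def transp (Γ : C.A (X.prod Y)) : C.A (Y.prod X) :=
  C.up (Obj.lift (snd Y X) (fst Y X)) Γ

/-- The external product of self-correspondences. -/
noncomputable def ten (Γ : C.A (X.prod X)) (Δ : C.A (Z.prod Z)) :
    C.A ((X.prod Z).prod (X.prod Z)) :=
  C.mul (C.up (prodMap (fst X Z) (fst X Z)) Γ) (C.up (prodMap (snd X Z) (snd X Z)) Δ)

/-- The self-correspondence `Γ ∘ Γ^t` of `X`. -/
noncomputable def sq (Γ : C.A (Y.prod X)) : C.A (X.prod X) := comp C (transp C Γ) Γ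

/-- The power `h ^ i`. -/
def pw (h : C.A X) (i : ℕ) : C.A X := h ^ i

/-- The zero-cycle `x` on `X` has degree `q`: the correspondence `x × 1` maps `1` to `q`. -/
def HasDeg (x : C.A X) (q : ℚ) : Prop := C.act (ext C x (1 : C.A X)) 1 = q • (1 : C.A X)

/-- The formal properties of the Chow groups with rational coefficients of smooth projective
(geometrically irreducible) varieties: those of `IsChow`, and

* push-forwards along isomorphisms preserve fundamental classes;
* `CH^0(X)` is generated by the fundamental class, and `CH^i(X) = 0` for `i > dim X`;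
* a zero-cycle `x` on `X` has a degree `q`: for all `Y` the push-forward of `x × Y` to `Y` is
  `q` times the fundamental class of `Y`;
* the self-intersection number `h ^ dim X` of some divisor class `h` is not zero. -/
class IsChowTheory (C : TheoryData.{u, v, 0} 𝒱 ℚ) : Prop extends IsChow C where
  push_one : ∀ {X Y : 𝒱.Obj} (f : X ⟶ Y) (g : Y ⟶ X), f ≫ g = 𝟙 X → g ≫ f = 𝟙 Y →
    C.down f 1 = 1
  gr_zero : ∀ (X : 𝒱.Obj) (x : C.A X), C.Deg 0 x → ∃ q : ℚ, x = q • (1 : C.A X)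
  gr_top : ∀ (X : 𝒱.Obj) (i : ℤ) (x : C.A X), C.Deg i x → (X.dim : ℤ) < i → x = 0
  degree : ∀ (X : 𝒱.Obj) (x : C.A X), C.Deg X.dim x → ∃ q : ℚ, ∀ Y : 𝒱.Obj,
    C.down (snd X Y) (C.up (fst X Y) x) = q • (1 : C.A Y) ∧
      C.down (fst Y X) (C.up (snd Y X) x) = q • (1 : C.A Y)
  polarized : ∀ X : 𝒱.Obj, ∃ h : C.A X, C.Deg 1 h ∧ ∃ q : ℚ, q ≠ 0 ∧
    C.down (snd X X) (C.up (fst X X) (pw C h X.dim)) = q • (1 : C.A X)

variable {C} {K : Type w} [Field K] (H : WeilTheoryData.{u, v, w} C K)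

/-- A Weil cohomology theory in the sense of `IsWeil` with the usual normalisations: `H^0(X)` is
spanned by `1 ≠ 0`, and the orientation vanishes outside the top degree `2 dim X`. -/
class IsWeilTheory : Prop extends IsWeil H where
  gr_zero : ∀ (X : 𝒱.Obj) (a : H.A X), H.Deg 0 a → ∃ c : K, a = c • (1 : H.A X)
  one_ne_zero : ∀ X : 𝒱.Obj, (1 : H.A X) ≠ 0
  tr_eq_zero : ∀ (X : 𝒱.Obj) (i : ℤ) (a : H.A X), H.Deg i a → i ≠ 2 * X.dim → H.tr X a = 0

/-- The cycle `x` is homologically trivial. -/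
def IsTrivial (x : C.A X) : Prop := H.cl x = 0

/-- The classes `ξ` and `c h` have the same cohomology class. -/
def IsMultiple (c : ℚ) (h ξ : C.A X) : Prop := H.cl ξ = H.cl (c • h)

/-- The standard conjecture of Hodge type for `X` and the divisor class `ξ`: for all `j ≤ n / 2`,
`n = dim X`, and all `x ∈ CH^j(X)` such that `cl(x)` is not zero and primitive,
`ξ ^ (n - 2 j + 1) · cl(x) = 0`, the number `(-1) ^ j deg (x · x · ξ ^ (n - 2 j))` is positive. -/
def HodgeType (X : 𝒱.Obj) (ξ : C.A X) : Prop :=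
  ∀ (j : ℕ) (x : C.A X), 2 * j ≤ X.dim → C.Deg j x →
    IsTrivial H (C.mul (pw C ξ (X.dim - 2 * j + 1)) x) → ¬ IsTrivial H x →
      ∃ q : ℚ, 0 < (-1) ^ j * q ∧ HasDeg C (C.mul (C.mul x x) (pw C ξ (X.dim - 2 * j))) q

/-- The sign of the self-intersection numbers of the algebraic classes of middle degree fixed by `δ`:
`(-1) ^ j deg (y · y) > 0` for `y ∈ CH^j(Y)`, `2 j = dim Y`, `δ_* y = y`, `cl(y) ≠ 0`. -/
def IsPositive (Y : 𝒱.Obj) (δ : C.A (Y.prod Y)) : Prop :=
  ∀ (j : ℕ) (y : C.A Y), Y.dim = 2 * j → C.Deg j y → C.act δ y = y → ¬ IsTrivial H y →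
    ∃ q : ℚ, 0 < (-1) ^ j * q ∧ HasDeg C (C.mul y y) q

end corr

end Pool.Agent.U926.HS
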