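import Pool.Agent.U926.HS.Sums

/-!
# The standard conjecture of Hodge type for hypersurfaces `g_0 + ⋯ + g_r = 0`
-/

set_option autoImplicit false

open CategoryTheory AlgebraicGeometry MvPolynomial

universe u v w

namespace Pool.Agent.U926.HSI

open Pool.Agent.H914 Pool.Agent.H914.VarClass Pool.Agent.H914.VarClass.Obj Pool.Agent.W492.BB
  Pool.Agent.W550.Corr Pool.Agent.TH133 Pool.Agent.U926.HC Pool.Agent.U926.SF

set_option linter.unusedSectionVars false

variable {k : Type u} [Field k] {𝒱 : VarClass k} {C : TheoryData.{u, v, 0} 𝒱 ℚ}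
  [hC : IsChowProj C] {P : Pieces C} {T : Hypersurfaces C} {d : ℕ} {K : Type w} [Field K]
  {H : WeilTheoryData.{u, v, w} C K} [hH : IsWeilProj H] {X : 𝒱.Obj}

include hC hH

lemma cl_smul (q : ℚ) (x : C.A X) : H.cl (q • x) = H.cl (q • (1 : C.A X)) * H.cl x := by
  rw [← map_mul, smul_mul_assoc, one_mul]

lemma cl_smul_eq_zero {q : ℚ} (hq : q ≠ 0) {x : C.A X} (h : H.cl (q • x) = 0) : H.cl x = 0 := by
  have h1 := cl_smul (H := H) q⁻¹ (q • x)
  rwa [h, mul_zero, smul_smul, inv_mul_cancel₀ hq, one_smul] at h1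

/-- Zero-cycles with the same class have the same degree. -/
lemma hasDegree_of_cl {x y : C.A X} (hx : x ∈ C.gr X X.dim) (hy : y ∈ C.gr X X.dim)
    (h : H.cl x = H.cl y) {q : ℚ} (hq : HasDegree C y q) : HasDegree C x q := by
  have h1 : HasDegree C (x - y) 0 := hasDegree_zero_of_cl H (Submodule.sub_mem _ hx hy)
    (by rw [map_sub, h, sub_self])
  have h2 := hasDegree_add h1 hq
  rwa [sub_add_cancel, zero_add] at h2

/-- **The standard conjecture of Hodge type for a hypersurface with a polarised decomposition.** -/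
theorem hodgeType_of_cone (hP : ∀ Y δ, P Y δ → IsPositive H Y δ) (hd : 0 < d) {ρ : Type}
    {F : MvPolynomial ρ k} (hE : IsEmbedded T d F) (hL : HasLefschetz H T F)
    (hn : 1 ≤ (T.V F).dim) (hF : T.pr d F ∈ HSI.cone C P (T.V F)) {ξ : C.A (T.V F)}
    (hξ : C.Deg 1 ξ) {c : ℚ} (hc : 0 < c) (hξc : H.cl ξ = H.cl (c • T.h F)) :
    HodgeType H (T.V F) ξ := by
  intro j x hj hx hprim hx0
  have hd0 : (d : ℚ) ≠ 0 := Nat.cast_ne_zero.2 (by omega)
  have hh := hE.h_deg
  have htop := hE.h_top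
  have htopne : H.cl (T.h F ^ (T.V F).dim) ≠ 0 := fun h0 => by
    have h1 := hasDegree_zero_of_cl H (pow_gr hh _) h0
    exact hd0 (hasDegree_unique H htop h1)
  -- powers of `ξ` and `h`
  have hpowξ : ∀ m : ℕ, H.cl (ξ ^ m) = H.cl (c ^ m • T.h F ^ m) := fun m => by
    rw [map_pow, hξc, ← map_pow, smul_pow]
  have hprim' : H.cl (T.h F ^ ((T.V F).dim - 2 * j + 1) * x) = 0 := by
    have h1 : H.cl (c ^ ((T.V F).dim - 2 * j + 1) • (T.h F ^ ((T.V F).dim - 2 * j + 1) * x)) =
        0 := by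
      rw [← smul_mul_assoc, map_mul, ← hpowξ, ← map_mul, hprim]
    exact cl_smul_eq_zero (pow_ne_zero _ hc.ne') h1
  rcases hj.eq_or_lt with hj2 | hj2
  · -- the middle degree
    have hj1 : 1 ≤ j := by omega
    have e1 : (T.V F).dim - 2 * j = 0 := by omega
    rw [e1, zero_add, pow_one] at hprim'
    have hx2 : HasDegree C (T.h F ^ ((T.V F).dim - j) * x) 0 := by
      have e2 : (T.V F).dim - j = (j - 1) + 1 := by omega
      have h1 : T.h F ^ ((T.V F).dim - j) * x ∈ C.gr (T.V F) (T.V F).dim := by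
        have h2 := C.mul_mem (pow_gr hh ((T.V F).dim - j)) hx
        have e3 : (((T.V F).dim - j : ℕ) : ℤ) + j = (T.V F).dim := by omega
        rwa [e3] at h2
      refine hasDegree_zero_of_cl H h1 ?_
      rw [e2, pow_succ, mul_assoc, map_mul, hprim', mul_zero]
    have hfix : C.act (T.pr d F) x = x := by
      have h1 := act_primProj hh d (by omega) hx hx2
      rw [mul_zero, zero_smul, sub_zero] at h1
      exact h1
    obtain ⟨q, hq, hdeg, h0⟩ := cone_positive hP hF hj2.symm hx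
    rw [hfix] at hdeg h0
    refine ⟨q, hq.lt_of_ne fun h1 => ?_, ?_⟩
    · have h4 : ((-1 : ℚ) ^ j) ≠ 0 := pow_ne_zero _ (by norm_num)
      exact hx0 (h0 ((mul_eq_zero.1 h1.symm).resolve_left h4))
    · rw [e1, pow_zero, mul_one]
      exact hdeg
  · -- below the middle degree
    rcases hL (2 * (j : ℤ)) (H.cl x) (H.cl_mem hx) (by omega) with h1 | ⟨i, κ, hi, hκ⟩
    · exact absurd h1 hx0
    obtain rfl : j = i := by omega
    have hκ0 : κ ≠ 0 := by
      rintro rfl
      exact hx0 (by rw [hκ, zero_smul])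
    have h2 : H.cl (T.h F ^ ((T.V F).dim - j + 1)) = 0 := by
      have e2 : (T.V F).dim - j + 1 = (T.V F).dim - 2 * j + 1 + j := by omega
      rw [map_mul, hκ, mul_smul_comm, ← map_mul, ← pow_add, ← e2] at hprim'
      exact (smul_eq_zero.1 hprim').resolve_left hκ0
    have hj0 : j = 0 := by
      by_contra hne
      have e2 : (T.V F).dim = ((T.V F).dim - j + 1) + (j - 1) := by omega
      apply htopne
      rw [e2, pow_add, map_mul, h2, zero_mul]
    subst hj0
    obtain ⟨q, rfl⟩ := hC.gr_zero _ x hx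
    have hq0 : q ≠ 0 := by
      rintro rfl
      exact hx0 (by rw [zero_smul, map_zero])
    refine ⟨q * q * (c ^ (T.V F).dim * d), ?_, ?_⟩
    · rw [pow_zero, one_mul]
      have hdpos : (0 : ℚ) < d := Nat.cast_pos.2 hd
      have hqq : 0 < q * q := mul_self_pos.2 hq0
      positivity
    · rw [Nat.mul_zero, Nat.sub_zero, smul_mul_smul_comm, one_mul, smul_mul_assoc, one_mul]
      refine hasDegree_smul (hasDegree_of_cl (H := H) (y := c ^ (T.V F).dim •
        T.h F ^ (T.V F).dim) ?_ ?_ (hpowξ _) (hasDegree_smul htop _)) _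
      · exact pow_gr hξ _
      · exact Submodule.smul_mem _ _ (pow_gr hh _)

omit hH in
/-- The elliptic pieces: the projectors are idempotent, symmetric and of degree zero. -/
lemma isElliptic_props (hT : IsHypersurfaceTheory H T 3) {Y : 𝒱.Obj} {δ : C.A (Y.prod Y)}
    (h : IsElliptic T Y δ) : δ ∈ C.gr (Y.prod Y) Y.dim ∧ C.comp δ δ = δ ∧ tp C δ = δ := by
  induction h with
  | point Y hY => exact ⟨dg_mem C Y, dg_comp C _, tp_dg C Y⟩
  | curve f hf hσ =>
    have := Nat.finite_of_card_ne_zero (hσ.trans_ne (by norm_num))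
    have hE := hT.emb f hf (by omega)
    exact ⟨prim_gr hE.h_deg 3, prim_comp hE.h_deg (by omega) hE.h_top, tp_prim _ 3⟩
  | prod Y Z δ ε _ _ h1 h2 =>
    obtain ⟨a1, a2, a3⟩ := h1
    obtain ⟨b1, b2, b3⟩ := h2
    refine ⟨?_, ?_, ?_⟩
    · have h := tens_mem C a1 b1
      rw [dim_prod]
      push_cast
      exact h
    · change C.comp (tens C δ ε) (tens C δ ε) = tens C δ ε
      rw [tens_comp C (ch_comm C), a2, b2]
    · change tp C (tens C δ ε) = tens C δ ε
      rw [tp_tens, a3, b3]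

omit hH in
lemma isElliptic_self (hT : IsHypersurfaceTheory H T 3) {Y : 𝒱.Obj} {δ : C.A (Y.prod Y)}
    (h : IsElliptic T Y δ) : δ ∈ HSI.cone C (IsElliptic T) Y := by
  obtain ⟨h1, h2, h3⟩ := isElliptic_props hT h
  exact self_mem_cone h h1 h2 h3

omit hH in
lemma isGood_one {P : Pieces C} {σ : Type} {g : MvPolynomial σ k} (hg : IsNonsingularForm d g)
    (h : Nat.card σ = 1) : IsGood T P d g :=
  ⟨hg, fun h3 => by omega, fun h2 => by omega⟩

/-- **Cubic hypersurfaces with ternary blocks.** -/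
theorem cubic (h3 : (3 : k) ≠ 0) (hT : IsHypersurfaceTheory H T 3) (hK : KnownFacts H T)
    {r : ℕ} {σ : Fin (r + 1) → Type} (g : ∀ l, MvPolynomial (σ l) k) (hg : HasBlocks 3 3 g) :
    IsGood T (IsElliptic T) 3 (sumForms g) := by
  have hk : ((3 : ℕ) : k) ≠ 0 := by exact_mod_cast h3
  have hp := isNonsingularForm_pow' (k := k) (d := 3) (by omega) hk
  have hP : IsClosed T (IsElliptic T) 3 := ⟨fun Y hY => .point Y hY,
    fun Y Z δ ε h1 h2 => .prod Y Z δ ε h1 h2, fun f hf hσ => isElliptic_self hT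
      (.curve _ (hf.sumForm hp) (by rw [card_sum_unit, hσ]))⟩
  have hfin := hg.finite
  refine isGood_sumForms hT (by omega) hk hP hg.finite hg.nonempty g fun l => ?_
  have hne := hg.nonempty l
  have h1 : 0 < Nat.card (σ l) := Nat.card_pos
  have h2 := hg.le l
  refine ⟨hg.form l, fun h4 => isElliptic_self hT (.curve _ (hg.form l) (by omega)),
    fun h4 => ?_⟩
  rcases h4.eq_or_lt with h5 | h5
  · exact isElliptic_self hT (.curve _ ((hg.form l).sumForm hp) (by rw [card_sum_unit, ← h5]))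
  · refine cone_trans (fun Y δ hY => ?_) (hK.surface _ (hg.form l) (by omega))
    obtain ⟨hY1, rfl⟩ := hY
    exact isElliptic_self hT (.point Y hY1)

/-- **Quartic hypersurfaces with binary blocks.** -/
theorem quartic (h2 : (2 : k) ≠ 0)
    (hT4 : IsHypersurfaceTheory H T 4) (hK : KnownFacts H T)
    {r : ℕ} {σ : Fin (r + 1) → Type} (g : ∀ l, MvPolynomial (σ l) k) (hg : HasBlocks 4 2 g) :
    IsGood T (IsElliptic T) 4 (sumForms g) := by
  have hk : ((4 : ℕ) : k) ≠ 0 := by
    have : (4 : k) = 2 * 2 := by norm_num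
    rw [Nat.cast_ofNat, this]
    exact mul_ne_zero h2 h2
  have hP : IsClosed T (IsElliptic T) 4 := ⟨fun Y hY => .point Y hY,
    fun Y Z δ ε h1 h2 => .prod Y Z δ ε h1 h2, fun f hf hσ => hK.quartic f hf hσ⟩
  have hfin := hg.finite
  refine isGood_sumForms hT4 (by omega) hk hP hg.finite hg.nonempty g fun l => ?_
  have h3 := hg.le l
  exact ⟨hg.form l, fun h4 => by omega, fun h4 => hK.quartic _ (hg.form l) (by omega)⟩

end Pool.Agent.U926.HSI
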