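import Pool.Agent.U926.HS.Known
import Pool.Agent.U926.HS.Final

/-!
# The definitions of `HS` and of `HSI` agree
-/

set_option autoImplicit false

open CategoryTheory AlgebraicGeometry MvPolynomial

universe u v w

namespace Pool.Agent.U926.HS

open Pool.Agent.H914 Pool.Agent.H914.VarClass Pool.Agent.H914.VarClass.Obj Pool.Agent.W492.BB
  Pool.Agent.TH133 Pool.Agent.U926.HC

set_option linter.unusedSectionVars false

variable {k : Type u} [Field k] {𝒱 : VarClass k} {C : TheoryData.{u, v, 0} 𝒱 ℚ}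

instance (priority := 100) [hC : IsChowTheory C] : IsChowProj C where
  toIsChow := hC.toIsChow
  push_one := hC.push_one
  gr_zero := hC.gr_zero
  gr_top := hC.gr_top
  degree := hC.degree
  polarized := hC.polarized

instance (priority := 100) {K : Type w} [Field K] (H : WeilTheoryData.{u, v, w} C K)
    [hH : IsWeilTheory H] : IsWeilProj H where
  toIsWeil := hH.toIsWeil
  gr_zero := hH.gr_zero
  one_ne_zero := hH.one_ne_zero
  tr_eq_zero := hH.tr_eq_zero

/-- The internal data. -/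
def int (T : Hypersurfaces C) : HSI.Hypersurfaces C := ⟨T.V, T.h⟩

lemma isLeg_iff {P : Pieces C} {X : 𝒱.Obj} {z : C.A (X.prod X)} :
    IsLeg C P X z ↔ HSI.IsLeg C P X z := Iff.rfl

lemma inCone_iff {P : Pieces C} {X : 𝒱.Obj} {z : C.A (X.prod X)} :
    InCone C P X z ↔ z ∈ HSI.cone C P X := Iff.rfl

lemma cone_mono {P Q : Pieces C} (h : ∀ Y δ, P Y δ → Q Y δ) {X : 𝒱.Obj} {z : C.A (X.prod X)}
    (hz : z ∈ HSI.cone C P X) : z ∈ HSI.cone C Q X := by
  refine AddSubmonoid.closure_mono ?_ hz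
  rintro z ⟨Y, δ, n, q, a, h1, h2⟩
  exact ⟨Y, δ, n, q, a, h _ _ h1, h2⟩

lemma isElliptic_of {T : Hypersurfaces C} {Y : 𝒱.Obj} {δ : C.A (Y.prod Y)}
    (h : HSI.IsElliptic (int T) Y δ) : IsElliptic T Y δ := by
  induction h with
  | point Y hY => exact .point Y hY
  | curve f hf hσ => exact .curve f hf hσ
  | prod Y Z δ ε _ _ h1 h2 => exact .prod Y Z δ ε h1 h2

lemma of_isElliptic {T : Hypersurfaces C} {Y : 𝒱.Obj} {δ : C.A (Y.prod Y)}
    (h : IsElliptic T Y δ) : HSI.IsElliptic (int T) Y δ := by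
  induction h with
  | point Y hY => exact .point Y hY
  | curve f hf hσ => exact .curve f hf hσ
  | prod Y Z δ ε _ _ h1 h2 => exact .prod Y Z δ ε h1 h2

lemma of_isCentre {T : Hypersurfaces C} {ρ σ τ : Type} {F : MvPolynomial ρ k}
    {f : MvPolynomial σ k} {g : MvPolynomial τ k} {z : C.A ((T.V F).prod (T.V F))}
    (h : IsCentre T F f g z) : HSI.IsCentre (int T) F f g z := by
  cases h with
  | join Γ h1 h2 h3 h4 => exact .join Γ h1 h2 h3.1 h3.2 h4
  | left Γ h1 h2 h3 h4 h5 => exact .left Γ h1 h2 h3 h4 h5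
  | line Y Γ h1 h2 h3 h4 h5 => exact .line Y Γ h1 h2 h3 h4 h5

lemma of_isDominated {T : Hypersurfaces C} {d : ℕ} {ρ σ τ : Type} {F : MvPolynomial ρ k}
    {f : MvPolynomial σ k} {g : MvPolynomial τ k} (h : IsDominated T d F f g) :
    HSI.IsDominated (int T) d F f g := by
  obtain ⟨Ψ, ⟨h1, h2⟩, q, m, q', z, h3, h4, h5⟩ := h
  refine ⟨q, Ψ, m, q', z, h3, ?_, h2, fun i => ⟨(h4 i).1, of_isCentre (h4 i).2⟩, h5⟩
  rw [add_zero] at h1
  exact h1

variable [hC : IsChowTheory C] {K : Type w} [Field K] {H : WeilTheoryData.{u, v, w} C K}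

include hC

lemma HasDeg.of {X : 𝒱.Obj} {x : C.A X} {q : ℚ} (h : HasDegree C x q) : HasDeg C x q := by
  have h1 : C.act (C.ext x (1 : C.A X)) 1 = q • (1 : C.A X) := act_ext' (by rwa [mul_one])
  exact h1

variable [hH : IsWeilTheory H]

include hH

variable (H) in
lemma HasDeg.hasDegree {X : 𝒱.Obj}
    {x : C.A X} (hx : x ∈ C.gr X X.dim) {q : ℚ} (h : HasDeg C x q) : HasDegree C x q := by
  obtain ⟨q', hq'⟩ := exists_hasDegree hx
  have h1 : q' • (1 : C.A X) = q • 1 := (HasDeg.of hq').symm.trans h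
  have h2 : q' = q := by
    by_contra hne
    have h4 : (q' - q) • (1 : C.A X) = 0 := by rw [sub_smul, h1, sub_self]
    have h5 : (1 : C.A X) = 0 := by
      rw [← one_smul ℚ (1 : C.A X), ← inv_mul_cancel₀ (sub_ne_zero.2 hne), mul_smul, h4,
        smul_zero]
    have h6 : (1 : H.A X) = 0 := by rw [← map_one H.cl, h5, map_zero]
    exact hH.one_ne_zero _ h6
  rwa [← h2]

lemma IsPositive.int {Y : 𝒱.Obj} {δ : C.A (Y.prod Y)} (h : IsPositive H Y δ) :
    HSI.IsPositive H Y δ := by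
  intro j y h1 h2 h3 h4
  obtain ⟨q, hq, hd⟩ := h j y h1 h2 h3 h4
  refine ⟨q, hq, HasDeg.hasDegree H ?_ hd⟩
  have h5 := C.mul_mem h2 h2
  have e : (j : ℤ) + j = Y.dim := by omega
  rwa [e] at h5

omit hH in
lemma hodgeType_of {X : 𝒱.Obj} {ξ : C.A X} (h : HSI.HodgeType H X ξ) : HodgeType H X ξ := by
  intro j x h1 h2 h3 h4
  obtain ⟨q, hq, hd⟩ := h j x h1 h2 h3 h4
  exact ⟨q, hq, .of hd⟩

lemma IsHypersurfaceTheory.int {T : Hypersurfaces C} {d : ℕ} (h : IsHypersurfaceTheory H T d) :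
    HSI.IsHypersurfaceTheory H (int T) d where
  emb f hf hσ := by
    have hE := h.emb f hf hσ
    exact ⟨hE.emb, hE.dim, hE.h_deg, HasDeg.hasDegree H (pow_gr hE.h_deg _) hE.h_top⟩
  lefschetz f hf hσ := h.lefschetz f hf hσ
  iso e F f h1 h2 h3 := h.iso e F f h1 h2 h3
  scale e F f g h1 h2 h3 h4 h5 := h.scale e F f g h1 h2 h3 h4 h5
  dominated e F f g h1 h2 h3 h4 h5 := of_isDominated (h.dominated e F f g h1 h2 h3 h4 h5)

lemma KnownFacts.int {T : Hypersurfaces C} (h : KnownFacts H T) :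
    HSI.KnownFacts H (int T) where
  surface g hg hσ := h.surface g hg hσ
  quartic f hf hσ := cone_mono (fun _ _ => of_isElliptic) (h.quartic f hf hσ)
  elliptic Y δ hY := (h.elliptic Y δ (isElliptic_of hY)).int

omit hC hH in
lemma HasBlocks.int {d B : ℕ} {r : ℕ} {σ : Fin (r + 1) → Type}
    {g : ∀ l, MvPolynomial (σ l) k} (h : HasBlocks d B g) : HSI.HasBlocks d B g :=
  ⟨h.finite, h.nonempty, h.form, h.le, h.three⟩

/-- **The standard conjecture of Hodge type for sums of forms in separate variables.** -/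
theorem main [IsAlgClosed k] (p : ℕ) [Fact p.Prime] [CharP k p]
    (hp : p ≠ 3) (T : Hypersurfaces C) (hK : KnownFacts H T) (d B : ℕ)
    (hd : (d = 3 ∧ B = 3) ∨ (p ≠ 2 ∧ d = 4 ∧ B = 2)) (hT : IsHypersurfaceTheory H T d) {r : ℕ}
    {σ : Fin (r + 1) → Type} (g : ∀ l, MvPolynomial (σ l) k) (hg : HasBlocks d B g)
    (ξ : C.A (T.V (sumForms g))) (hξ : C.Deg 1 ξ) (c : ℚ) (hc : 0 < c)
    (hξc : IsMultiple H c (T.h (sumForms g)) ξ) : HodgeType H (T.V (sumForms g)) ξ := by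
  have hT' := hT.int
  have hK' := hK.int
  have hg' := hg.int
  refine hodgeType_of ?_
  obtain ⟨h1, h2⟩ : HSI.IsGood (int T) (HSI.IsElliptic (int T)) d (sumForms g) ∧ 0 < d := by
    rcases hd with ⟨rfl, rfl⟩ | ⟨hp2, rfl, rfl⟩
    · refine ⟨HSI.cubic (H := H) (fun h0 => hp ?_) hT' hK' g hg', by omega⟩
      have h2 := (CharP.cast_eq_zero_iff k p 3).1 (by exact_mod_cast h0)
      exact (Nat.prime_dvd_prime_iff_eq Fact.out Nat.prime_three).1 h2
    · refine ⟨HSI.quartic (H := H) (fun h0 => hp2 ?_) hT' hK' g hg', by omega⟩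
      have h2 := (CharP.cast_eq_zero_iff k p 2).1 (by exact_mod_cast h0)
      exact (Nat.prime_dvd_prime_iff_eq Fact.out Nat.prime_two).1 h2
  have hfin := hg.finite
  have hE := hT'.emb (sumForms g) h1.form hg.three
  have hn := hE.dim
  have h3 := hg.three
  exact HSI.hodgeType_of_cone (T := int T) hK'.elliptic h2 hE
    (hT'.lefschetz (sumForms g) h1.form hg.three) (by omega) (h1.base hg.three) hξ hc hξc

end Pool.Agent.U926.HS
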