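import Pool.Agent.U926.HS.Defs
import Pool.Agent.U926.HC.Main

/-!
# Cones of self-correspondences
-/

set_option autoImplicit false

open CategoryTheory AlgebraicGeometry MvPolynomial

universe u v w

namespace Pool.Agent.U926.HSI

open Pool.Agent.H914 Pool.Agent.H914.VarClass Pool.Agent.H914.VarClass.Obj Pool.Agent.W492.BB
  Pool.Agent.W550.Corr Pool.Agent.TH133 Pool.Agent.U926.HC

set_option linter.unusedSectionVars false

lemma sign_mul {m n : ℕ} {q r : ℚ} (hq : 0 < (-1) ^ m * q) (hr : 0 < (-1) ^ n * r) :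
    0 < (-1) ^ (m + n) * (q * r) := by
  have h1 := mul_pos hq hr
  have e1 : (-1 : ℚ) ^ m * q * ((-1) ^ n * r) = (-1) ^ (m + n) * (q * r) := by
    rw [pow_add]; ring
  rwa [e1] at h1

variable {k : Type u} [Field k] {𝒱 : VarClass k} {C : TheoryData.{u, v, 0} 𝒱 ℚ}
  [hC : IsChowProj C] {P : Pieces C} {X Y Z : 𝒱.Obj}

include hC

/-- A piece lies in its cone. -/
lemma self_mem_cone {δ : C.A (Y.prod Y)} (hP : P Y δ) (hd : δ ∈ C.gr (Y.prod Y) Y.dim)
    (hi : C.comp δ δ = δ) (ht : tp C δ = δ) : δ ∈ cone C P Y := by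
  refine AddSubmonoid.subset_closure ⟨Y, δ, 0, 1, δ, hP, by omega, by norm_num, ?_, hi, ?_⟩
  · rw [Nat.cast_zero, sub_zero]
    exact hd
  · rw [ht, hi, one_smul]

/-- Pull-back of a cone by a correspondence. -/
lemma pull_mem_cone {ε : C.A (Y.prod Y)} (hε : ε ∈ cone C P Y) {n : ℕ} {q : ℚ}
    (hq : 0 < (-1) ^ n * q) (hdim : X.dim = Y.dim + 2 * n) {b : C.A (X.prod Y)}
    (hb : b ∈ C.gr (X.prod Y) ((X.dim : ℤ) - n)) :
    q • C.comp b (C.comp ε (tp C b)) ∈ cone C P X := by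
  refine AddSubmonoid.closure_induction (motive := fun ε _ => q • C.comp b (C.comp ε (tp C b)) ∈
    cone C P X) ?_ ?_ ?_ hε
  · rintro ε ⟨W, δ, m, r, a, hP, hd, hr, ha, hδ, rfl⟩
    refine AddSubmonoid.subset_closure ⟨W, δ, n + m, q * r, C.comp b a, hP, by omega,
      sign_mul hq hr, ?_, ?_, ?_⟩
    · have h1 := comp_gr hb ha
      have e1 : (X.dim : ℤ) - n + (Y.dim - m) - Y.dim = X.dim - ((n + m : ℕ) : ℤ) := by
        push_cast; ring
      rwa [e1] at h1
    · rw [comp_assoc, hδ]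
    · rw [tp_comp C (ch_comm C), HC.smul_comp, HC.comp_smul, smul_smul, comp_assoc, comp_assoc]
  · change q • C.comp b (C.comp 0 (tp C b)) ∈ _
    rw [zero_comp, comp_zero, smul_zero]
    exact AddSubmonoid.zero_mem _
  · intro x y _ _ hx hy
    change q • C.comp b (C.comp (x + y) (tp C b)) ∈ _
    rw [add_comp, comp_add, smul_add]
    exact AddSubmonoid.add_mem _ hx hy

/-- Transitivity of cones. -/
lemma cone_trans {Q : Pieces C} (hPQ : ∀ Y δ, P Y δ → δ ∈ cone C Q Y) {ε : C.A (X.prod X)}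
    (hε : ε ∈ cone C P X) : ε ∈ cone C Q X := by
  refine AddSubmonoid.closure_induction (motive := fun ε _ => ε ∈ cone C Q X) ?_ ?_ ?_ hε
  · rintro ε ⟨W, δ, m, r, a, hP, hd, hr, ha, hδ, rfl⟩
    have h1 := pull_mem_cone (hPQ W δ hP) hr hd ha
    rwa [← comp_assoc, hδ] at h1
  · exact AddSubmonoid.zero_mem _
  · intro x y _ _ hx hy
    exact AddSubmonoid.add_mem _ hx hy

/-- Products of cones. -/
lemma tens_mem_cone (hP : ∀ Y Z δ ε, P Y δ → P Z ε → P (Y.prod Z) (tens C δ ε))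
    {δ : C.A (Y.prod Y)} {ε : C.A (Z.prod Z)} (hδ : δ ∈ cone C P Y) (hε : ε ∈ cone C P Z) :
    tens C δ ε ∈ cone C P (Y.prod Z) := by
  have key : ∀ z ∈ cone C P Y, ∀ z' ∈ cone C P Z, tensL (C := C) z z' ∈ cone C P (Y.prod Z) := by
    intro z hz z' hz'
    refine AddSubmonoid.closure_induction (motive := fun z _ => tensL (C := C) z z' ∈ _) ?_ ?_ ?_ hz
    · rintro z ⟨S, δ, n, q, a, hS, hd, hq, ha, hδ, rfl⟩
      refine AddSubmonoid.closure_induction
        (motive := fun z' _ => tensL (C := C) (q • C.comp a (tp C a)) z' ∈ _) ?_ ?_ ?_ hz'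
      · rintro z' ⟨S', δ', n', q', a', hS', hd', hq', ha', hδ', rfl⟩
        refine AddSubmonoid.subset_closure ⟨S.prod S', tens C δ δ', n + n', q * q',
          tens C a a', hP _ _ _ _ hS hS', ?_, sign_mul hq hq', ?_, ?_, ?_⟩
        · rw [dim_prod, dim_prod]; omega
        · have h1 := tens_mem C ha ha'
          have e1 : (Y.dim : ℤ) - n + ((Z.dim : ℤ) - n') =
              (((Y.prod Z).dim : ℕ) : ℤ) - ((n + n' : ℕ) : ℤ) := by
            rw [dim_prod]; push_cast; ring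
          rwa [e1] at h1
        · rw [tens_comp C (ch_comm C), hδ, hδ']
        · rw [tp_tens, tens_comp C (ch_comm C), ← tensL_apply (C.comp a (tp C a)), map_smul,
            map_smul, LinearMap.smul_apply, smul_smul, mul_comm q' q]
      · rw [map_zero]; exact AddSubmonoid.zero_mem _
      · intro x y _ _ hx hy
        rw [map_add]; exact AddSubmonoid.add_mem _ hx hy
    · rw [map_zero, LinearMap.zero_apply]; exact AddSubmonoid.zero_mem _
    · intro x y _ _ hx hy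
      rw [map_add, LinearMap.add_apply]; exact AddSubmonoid.add_mem _ hx hy
  exact key δ hδ ε hε

/-! ### The primitive projectors -/

lemma prim_eq (d : ℕ) (h : C.A X) : prim C d h = primProj C d h := rfl

lemma prim_gr {h : C.A X} (hh : h ∈ C.gr X 1) (d : ℕ) : prim C d h ∈ C.gr (X.prod X) X.dim :=
  primProj_gr hh d

lemma tp_prim (h : C.A X) (d : ℕ) : tp C (prim C d h) = prim C d h := tp_primProj h d

lemma act_prim_pow {h : C.A X} (hh : h ∈ C.gr X 1) {d : ℕ} (hd : d ≠ 0)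
    (hdeg : HasDegree C (h ^ X.dim) d) (j : ℕ) : C.act (prim C d h) (h ^ j) = 0 :=
  act_primProj_pow hh hd hdeg j

lemma prim_comp {h : C.A X} (hh : h ∈ C.gr X 1) {d : ℕ} (hd : d ≠ 0)
    (hdeg : HasDegree C (h ^ X.dim) d) : C.comp (prim C d h) (prim C d h) = prim C d h :=
  primProj_comp hh hd hdeg

lemma ten_eq (Γ : C.A (X.prod X)) (Δ : C.A (Z.prod Z)) : ten C Γ Δ = tens C Γ Δ := rfl

/-- A linear correspondence from a product, composed with a projector which kills the powers of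
`h`, factors through the product of the primitive projectors. -/
lemma linear₂_comp {A B : 𝒱.Obj} {hA : C.A A} {hB : C.A B} {h : C.A X} {d : ℕ}
    {Φ : C.A ((A.prod B).prod X)} (hΦ : IsLinear₂ hA hB h Φ) {π : C.A (X.prod X)}
    (hπ : ∀ l : ℕ, C.act π (h ^ l) = 0) :
    C.comp Φ π = C.comp (tens C (prim C d hA) (prim C d hB)) (C.comp Φ π) :=
  linear_comp (hA := hA) (hB := hB) (h := h) (d := d) hΦ hπ

/-- The same for a linear correspondence from one variety. -/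
lemma linear₁_comp {A : 𝒱.Obj} {hA : C.A A} {h : C.A X} {d : ℕ}
    {Φ : C.A (A.prod X)} (hΦ : IsLinear₁ hA h Φ) {π : C.A (X.prod X)}
    (hπ : ∀ l : ℕ, C.act π (h ^ l) = 0) :
    C.comp Φ π = C.comp (prim C d hA) (C.comp Φ π) := by
  obtain ⟨τ, hτ⟩ : ∃ τ, τ = (d : ℚ)⁻¹ • ∑ i ∈ Finset.range (A.dim + 1),
    C.ext (hA ^ (A.dim - i)) (hA ^ i) := ⟨_, rfl⟩
  have e1 : prim C d hA = dg C A - τ := by rw [hτ]; rfl
  have h1 : C.comp τ (C.comp Φ π) = 0 := by
    rw [← comp_assoc, hτ, HC.smul_comp, sum_comp, HC.smul_comp, sum_comp, Finset.sum_eq_zero,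
      smul_zero]
    intro i hi
    exact decomposable_comp (h := h) (hΦ i (by
      have := Finset.mem_range.1 hi
      omega)) hπ
  rw [e1, sub_comp, dg_comp, h1, sub_zero]

/-- A leg `q Φ ∘ Φ^t`, restricted to the primitive part. -/
lemma leg_mem {Y : 𝒱.Obj} {ε : C.A (Y.prod Y)} (hε : ε ∈ cone C P Y)
    {π : C.A (X.prod X)} (htp : tp C π = π)
    (hπd : π ∈ C.gr (X.prod X) X.dim) {Φ : C.A (Y.prod X)} {n : ℕ}
    (hΦ : C.comp Φ π = C.comp ε (C.comp Φ π))
    (hdeg : Φ ∈ C.gr (Y.prod X) ((Y.dim : ℤ) + n)) (hdim : X.dim = Y.dim + 2 * n) {q : ℚ}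
    (hq : 0 < (-1) ^ n * q) :
    C.comp π (C.comp (q • C.comp (tp C Φ) Φ) π) ∈ cone C P X := by
  have h1 : C.comp π (tp C Φ) ∈ C.gr (X.prod Y) ((X.dim : ℤ) - n) := by
    have h1 := comp_gr hπd (tp_mem C hdeg)
    have e1 : (X.dim : ℤ) + (Y.dim + n) - X.dim = X.dim - n := by omega
    rwa [e1] at h1
  have h2 := pull_mem_cone hε hq hdim h1
  have e2 : tp C (C.comp π (tp C Φ)) = C.comp Φ π := by
    rw [tp_comp C (ch_comm C), tp_tp, htp]
  rw [e2, ← hΦ] at h2
  rw [HC.smul_comp, HC.comp_smul, comp_assoc, ← comp_assoc C π]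
  exact h2

lemma cograph_eq (φ : X ⟶ Y) : tp C (C.graph φ) = C.cograph φ := by
  rw [tp_eq_push, TheoryData.graph, ← C.push_comp, TheoryData.cograph]
  have e1 : Obj.lift (𝟙 X) φ ≫ sw X Y = Obj.lift φ (𝟙 X) := by
    apply prod_ext <;> simp [sw, comp_lift]
  rw [e1]

/-- An isomorphism, compatible with the divisor classes, respects the primitive projectors. -/
lemma iso_comp {d : ℕ} {h : C.A X} {h' : C.A Y} {φ : X ⟶ Y} {ψ : Y ⟶ X} (h1 : φ ≫ ψ = 𝟙 X)
    (h2 : ψ ≫ φ = 𝟙 Y) (hφ : C.pull φ h' = h) (hdim : X.dim = Y.dim) :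
    C.comp (C.graph φ) (C.comp (prim C d h') (tp C (C.graph φ))) = prim C d h := by
  have e1 : tp C (C.graph φ) = C.graph ψ := by
    rw [cograph_eq, TheoryData.cograph, TheoryData.graph]
    have h3 : C.push ψ 1 = 1 := HasIso.push_one ψ φ h2 h1
    rw [← h3, ← C.push_comp]
    have e2 : ψ ≫ Obj.lift φ (𝟙 X) = Obj.lift (𝟙 Y) ψ := by
      rw [comp_lift, h2, Category.comp_id]
    rw [e2]
  have e3 : C.comp (C.graph φ) (C.graph ψ) = dg C X := by
    rw [comp_eq_extR, extR_graph, dg, TheoryData.graph, TheoryData.graph, ← C.push_comp]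
    have e2 : Obj.lift (𝟙 X) φ ≫ prodMap (𝟙 X) ψ = Obj.lift (𝟙 X) (𝟙 X) := by
      apply prod_ext
      · rw [Category.assoc, prodMap_fst, Category.comp_id, lift_fst, lift_fst]
      · rw [Category.assoc, prodMap_snd, ← Category.assoc, lift_snd, lift_snd, h1]
    rw [e2]
  have e4 : ∀ y : C.A Y, C.act (tp C (C.graph φ)) y = C.pull φ y := fun y => by
    rw [cograph_eq, C.act_cograph]
  have e5 : ∀ i, C.comp (C.graph φ) (C.comp (C.ext (h' ^ (Y.dim - i)) (h' ^ i))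
      (tp C (C.graph φ))) = C.ext (h ^ (X.dim - i)) (h ^ i) := fun i => by
    have e6 : C.comp (C.graph φ) (C.ext (h' ^ (Y.dim - i)) (h ^ i)) =
        tp C (C.comp (C.ext (h ^ i) (h' ^ (Y.dim - i))) (tp C (C.graph φ))) := by
      rw [tp_comp C (ch_comm C), tp_tp, tp_ext]
    rw [comp_ext, e4, map_pow, hφ, e6, comp_ext, e4, map_pow, hφ, tp_ext, hdim]
  have e7 : prim C d h' = dg C Y - (d : ℚ)⁻¹ • ∑ i ∈ Finset.range (Y.dim + 1),
      C.ext (h' ^ (Y.dim - i)) (h' ^ i) := rfl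
  have e8 : prim C d h = dg C X - (d : ℚ)⁻¹ • ∑ i ∈ Finset.range (X.dim + 1),
      C.ext (h ^ (X.dim - i)) (h ^ i) := rfl
  rw [e7, e8, sub_comp, comp_sub, dg_comp, HC.smul_comp, HC.comp_smul, sum_comp, comp_sum,
    Finset.sum_congr rfl fun i _ => e5 i, e1, e3, hdim]

end Pool.Agent.U926.HSI
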