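import Pool.Agent.TH133.Defs
import Pool.Agent.U926.HC.FormDefs

/-!
# Polarised decompositions of primitive motives, and the standard conjecture of Hodge type:
definitions
-/

set_option autoImplicit false

open CategoryTheory AlgebraicGeometry MvPolynomial

universe u v w

namespace Pool.Agent.U926.HSI

open Pool.Agent.H914 Pool.Agent.H914.VarClass Pool.Agent.H914.VarClass.Obj Pool.Agent.W492.BB
  Pool.Agent.TH133 Pool.Agent.U926.HC

section pieces

variable {k : Type u} [Field k] {𝒱 : VarClass k} (C : TheoryData.{u, v, 0} 𝒱 ℚ)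

/-- A set of pairs `(Y, δ)` of varieties and self-correspondences. -/
abbrev Pieces : Type _ := ∀ Y : 𝒱.Obj, C.A (Y.prod Y) → Prop

/-- The external product of self-correspondences. -/
noncomputable def ten {X Z : 𝒱.Obj} (Γ : C.A (X.prod X)) (Δ : C.A (Z.prod Z)) :
    C.A ((X.prod Z).prod (X.prod Z)) :=
  C.mul (C.up (prodMap (fst X Z) (fst X Z)) Γ) (C.up (prodMap (snd X Z) (snd X Z)) Δ)

/-- The self-correspondence `z` of `X` is `q a^t ∘ δ ∘ a = q a^t ∘ a`, for a pair `(Y, δ)` in `P`
with `dim X = dim Y + 2 n`, a correspondence `a = δ ∘ a` from `X` to `Y` which lowers the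
codimension by `n`, and a rational number `q` of the sign `(-1) ^ n`. -/
def IsLeg (P : Pieces C) (X : 𝒱.Obj) (z : C.A (X.prod X)) : Prop :=
  ∃ (Y : 𝒱.Obj) (δ : C.A (Y.prod Y)) (n : ℕ) (q : ℚ) (a : C.A (X.prod Y)), P Y δ ∧
    X.dim = Y.dim + 2 * n ∧ 0 < (-1) ^ n * q ∧ C.Deg ((X.dim : ℤ) - n) a ∧ C.comp a δ = a ∧
      z = q • C.comp a (tp C a)

/-- The finite sums of such self-correspondences. -/
noncomputable def cone (P : Pieces C) (X : 𝒱.Obj) : AddSubmonoid (C.A (X.prod X)) :=
  AddSubmonoid.closure {z | IsLeg C P X z}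

/-- The class `h ^ (n - i) × h ^ i` on `X × X`, `n = dim X`. -/
noncomputable def lin {X : 𝒱.Obj} (h : C.A X) (i : ℕ) : C.A (X.prod X) :=
  C.ext (h ^ (X.dim - i)) (h ^ i)

/-- The projector `[Δ] - (1 / d) ∑ h ^ (n - i) × h ^ i` to the primitive part of the motive of a
variety `X` of dimension `n` with a divisor class `h` of degree `d`. -/
noncomputable def prim {X : 𝒱.Obj} (d : ℕ) (h : C.A X) : C.A (X.prod X) :=
  C.graph (𝟙 X) - (d : ℚ)⁻¹ • ∑ i ∈ Finset.range (X.dim + 1), lin C h i

/-- The hypersurfaces `f = 0` as varieties of the class `𝒱`, for all forms `f` in any set `σ` of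
variables, with the classes of the hyperplane sections. -/
structure Hypersurfaces where
  /-- the hypersurface `f = 0` -/
  V : ∀ {σ : Type}, MvPolynomial σ k → 𝒱.Obj
  /-- the class of a hyperplane section -/
  h : ∀ {σ : Type} (f : MvPolynomial σ k), C.A (V f)

/-- The primitive projector of the hypersurface `f = 0` of degree `d`. -/
noncomputable def Hypersurfaces.pr {C : TheoryData.{u, v, 0} 𝒱 ℚ} (T : Hypersurfaces C) (d : ℕ)
    {σ : Type} (f : MvPolynomial σ k) : C.A ((T.V f).prod (T.V f)) := prim C d (T.h f)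

/-- The correspondence `z` from `Y` to `X` is a sum of products `γ × h ^ l`. -/
def IsSplit {Y X : 𝒱.Obj} (h : C.A X) (z : C.A (Y.prod X)) : Prop :=
  z ∈ Submodule.span ℚ {z | ∃ (γ : C.A Y) (l : ℕ), z = C.ext γ (h ^ l)}

variable {C}

/-- The correspondence `Φ` from `A × B` to the hypersurface `X` maps the products of the cycles on
`A`, respectively `B`, and the linear sections of `B`, respectively `A`, to restrictions of cycles on
the projective space, also in families. -/
def IsLinear₂ {A B X : 𝒱.Obj} (hA : C.A A) (hB : C.A B) (h : C.A X)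
    (Φ : C.A ((A.prod B).prod X)) : Prop :=
  (∀ i ≤ B.dim, IsSplit C h (C.comp (ten C (C.graph (𝟙 A)) (lin C hB i)) Φ)) ∧
    ∀ i ≤ A.dim, IsSplit C h (C.comp (ten C (lin C hA i) (C.graph (𝟙 B))) Φ)

/-- The correspondence `Φ` from `A` to the hypersurface `X` maps the linear sections of `A` to
restrictions of cycles on the projective space. -/
def IsLinear₁ {A X : 𝒱.Obj} (hA : C.A A) (h : C.A X) (Φ : C.A (A.prod X)) : Prop :=
  ∀ i ≤ A.dim, IsSplit C h (C.comp (lin C hA i) Φ)

/-- The self-correspondence `z = Γ ∘ Γ^t` of the hypersurface `F = 0`, `F = f(x) + g(y)`, where the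
correspondence `Γ` is given by the family of the lines joining the points of `f(x) = 0` and
`g(y) = 0` (`join`); if `g` has two variables, of the lines joining the points of `f(x) = 0` and a
fixed zero of `g` (`left`); if `f` and `g` have two variables, by the line joining a zero of `f` and
a zero of `g` (`line`; here `Y` is a point). -/
inductive IsCentre (T : Hypersurfaces C) {ρ σ τ : Type} (F : MvPolynomial ρ k)
    (f : MvPolynomial σ k) (g : MvPolynomial τ k) (z : C.A ((T.V F).prod (T.V F))) : Prop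
  | join (Γ : C.A (((T.V f).prod (T.V g)).prod (T.V F))) : 3 ≤ Nat.card σ → 3 ≤ Nat.card τ →
      C.Deg ((((T.V f).prod (T.V g)).dim : ℤ) + 1) Γ → IsLinear₂ (T.h f) (T.h g) (T.h F) Γ →
      z = C.comp (tp C Γ) Γ → IsCentre T F f g z
  | left (Γ : C.A ((T.V f).prod (T.V F))) : 3 ≤ Nat.card σ → Nat.card τ = 2 →
      C.Deg (((T.V f).dim : ℤ) + 1) Γ → IsLinear₁ (T.h f) (T.h F) Γ →
      z = C.comp (tp C Γ) Γ → IsCentre T F f g z
  | line (Y : 𝒱.Obj) (Γ : C.A (Y.prod (T.V F))) : Nat.card σ = 2 → Nat.card τ = 2 →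
      Y.dim = 0 → C.Deg 1 Γ → z = C.comp (tp C Γ) Γ → IsCentre T F f g z

/-- The theorem of Katsura and Shioda for `F = f(x) + g(y)`. Let `A` and `B` be the hypersurfaces
`f(x) + z ^ d = 0` and `g(y) + w ^ d = 0`. The rational map from `A × B` to the hypersurface `F = 0`
which maps `((x : z), (y : w))` to `(w x : ε z y)`, `ε ^ d = -1`, has degree `d` and becomes a morphism
after blowing up the product of `f(x) = 0` and `g(y) = 0`. By the blow-up formula
`[Δ] = q Ψ ∘ Ψ^t + ∑ q' Γ ∘ Γ^t`, with `q = 1 / d` and `q' = -1 / d`, `Ψ` the graph of the rational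
map, and one `Γ` as in `IsCentre` for each component of the product of `f(x) = 0` and
`g(y) = 0`. -/
def IsDominated (T : Hypersurfaces C) (d : ℕ) {ρ σ τ : Type} (F : MvPolynomial ρ k)
    (f : MvPolynomial σ k) (g : MvPolynomial τ k) : Prop :=
  ∃ (q : ℚ) (Ψ : C.A (((T.V (addPow d f)).prod (T.V (addPow d g))).prod (T.V F))) (m : ℕ)
    (q' : Fin m → ℚ) (z : Fin m → C.A ((T.V F).prod (T.V F))), 0 < q ∧
    C.Deg (((T.V (addPow d f)).prod (T.V (addPow d g))).dim : ℤ) Ψ ∧
    IsLinear₂ (T.h (addPow d f)) (T.h (addPow d g)) (T.h F) Ψ ∧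
    (∀ i, q' i < 0 ∧ IsCentre T F f g (z i)) ∧
    C.graph (𝟙 (T.V F)) = q • C.comp (tp C Ψ) Ψ + ∑ i, q' i • z i

/-- There is an isomorphism of the hypersurfaces `F = 0` and `f = 0` which respects the classes of the
hyperplane sections. -/
def IsIsomorphic (T : Hypersurfaces C) {ρ σ : Type} (F : MvPolynomial ρ k)
    (f : MvPolynomial σ k) : Prop :=
  ∃ (φ : T.V F ⟶ T.V f) (ψ : T.V f ⟶ T.V F), φ ≫ ψ = 𝟙 _ ∧ ψ ≫ φ = 𝟙 _ ∧
    C.up φ (T.h f) = T.h F

/-- The variety `V(f)` is the hypersurface `f = 0`; the class `h` has codimension one and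
`deg h ^ n = d`. -/
structure IsEmbedded (T : Hypersurfaces C) (d : ℕ) {σ : Type} (f : MvPolynomial σ k) :
    Prop where
  emb : IsHypersurface (T.V f).V f
  dim : (T.V f).dim + 2 = Nat.card σ
  h_deg : C.Deg 1 (T.h f)
  h_top : HasDegree C (T.h f ^ (T.V f).dim) d

/-- The pairs of a product of points and plane cubic curves `E_i` (given by nonsingular ternary cubic
forms), and the external product of the diagonals of the points and the primitive projectors of the
`E_i`. -/
inductive IsElliptic (T : Hypersurfaces C) : Pieces C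
  | point (Y : 𝒱.Obj) : Y.dim = 0 → IsElliptic T Y (C.graph (𝟙 Y))
  | curve {σ : Type} (f : MvPolynomial σ k) : IsNonsingularForm 3 f → Nat.card σ = 3 →
      IsElliptic T (T.V f) (T.pr 3 f)
  | prod (Y Z : 𝒱.Obj) (δ : C.A (Y.prod Y)) (ε : C.A (Z.prod Z)) : IsElliptic T Y δ →
      IsElliptic T Z ε → IsElliptic T (Y.prod Z) (ten C δ ε)

end pieces

section hodge

variable {k : Type u} [Field k] {𝒱 : VarClass k} {C : TheoryData.{u, v, 0} 𝒱 ℚ} {K : Type w}
  [Field K] (H : WeilTheoryData.{u, v, w} C K)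

/-- The sign of the self-intersection numbers of the algebraic classes of middle degree fixed by `δ`:
`(-1) ^ j deg (y · y) > 0` for `y ∈ CH^j(Y)`, `2 j = dim Y`, `δ_* y = y`, `cl(y) ≠ 0`. -/
def IsPositive (Y : 𝒱.Obj) (δ : C.A (Y.prod Y)) : Prop :=
  ∀ (j : ℕ) (y : C.A Y), Y.dim = 2 * j → C.Deg j y → C.act δ y = y → H.cl y ≠ 0 →
    ∃ q : ℚ, 0 < (-1) ^ j * q ∧ HasDegree C (y * y) q

/-- The standard conjecture of Hodge type for `X` and the divisor class `ξ`: for all `j ≤ n / 2`,
`n = dim X`, and all `x ∈ CH^j(X)` such that `cl(x)` is not zero and primitive,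
`ξ ^ (n - 2 j + 1) · cl(x) = 0`, the number `(-1) ^ j deg (x · x · ξ ^ (n - 2 j))` is positive. -/
def HodgeType (X : 𝒱.Obj) (ξ : C.A X) : Prop :=
  ∀ (j : ℕ) (x : C.A X), 2 * j ≤ X.dim → C.Deg j x → H.cl (ξ ^ (X.dim - 2 * j + 1) * x) = 0 →
    H.cl x ≠ 0 → ∃ q : ℚ, 0 < (-1) ^ j * q ∧ HasDegree C (x * x * ξ ^ (X.dim - 2 * j)) q

/-- The cohomology of the hypersurface `f = 0` outside the middle degree is spanned by the powers
of `h` (Lefschetz). -/
def HasLefschetz (T : Hypersurfaces C) {σ : Type} (f : MvPolynomial σ k) : Prop :=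
  ∀ (l : ℤ) (a : H.A (T.V f)), H.Deg l a → l ≠ (T.V f).dim →
    a = 0 ∨ ∃ (i : ℕ) (κ : K), l = 2 * i ∧ a = κ • H.cl (T.h f ^ i)

/-- The known properties of the nonsingular hypersurfaces of degree `d` and dimension `≥ 1` which are
used:

* `emb`, `lefschetz`: see `IsEmbedded`, `HasLefschetz`;
* `iso`: a bijection of the variables gives an isomorphism;
* `scale`: if `F = f(x) + g(y)` and `g` has one variable, `F = 0` is isomorphic to
  `f(x) + z ^ d = 0`;
* `dominated` (Katsura-Shioda): see `IsDominated`; `F = f(x) + g(y)` where `f` has at least as many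
  variables as `g`, and `g` has at least two variables. -/
structure IsHypersurfaceTheory (T : Hypersurfaces C) (d : ℕ) : Prop where
  emb : ∀ {σ : Type} [Finite σ] (f : MvPolynomial σ k), IsNonsingularForm d f → 3 ≤ Nat.card σ →
    IsEmbedded T d f
  lefschetz : ∀ {σ : Type} [Finite σ] (f : MvPolynomial σ k), IsNonsingularForm d f →
    3 ≤ Nat.card σ → HasLefschetz H T f
  iso : ∀ {ρ σ : Type} [Finite ρ] [Finite σ] (e : ρ ≃ σ) (F : MvPolynomial ρ k)
    (f : MvPolynomial σ k), rename e F = f → IsNonsingularForm d f → 3 ≤ Nat.card σ →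
    IsIsomorphic T F f
  scale : ∀ {ρ σ τ : Type} [Finite ρ] [Finite σ] [Finite τ] (e : ρ ≃ σ ⊕ τ)
    (F : MvPolynomial ρ k) (f : MvPolynomial σ k) (g : MvPolynomial τ k),
    rename e F = sumForm f g → IsNonsingularForm d f → IsNonsingularForm d g →
    2 ≤ Nat.card σ → Nat.card τ = 1 → IsIsomorphic T F (addPow d f)
  dominated : ∀ {ρ σ τ : Type} [Finite ρ] [Finite σ] [Finite τ] (e : ρ ≃ σ ⊕ τ)
    (F : MvPolynomial ρ k) (f : MvPolynomial σ k) (g : MvPolynomial τ k),
    rename e F = sumForm f g → IsNonsingularForm d f → IsNonsingularForm d g →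
    2 ≤ Nat.card τ → Nat.card τ ≤ Nat.card σ → IsDominated T d F f g

/-- The pairs of a point and its diagonal. -/
def IsPoint : Pieces C := fun Y δ => Y.dim = 0 ∧ δ = C.graph (𝟙 Y)

/-- The known facts on cubic surfaces, plane quartic curves and products of elliptic curves which are
used:

* `surface`: the primitive motive of a cubic surface `g(x) + z ^ 3 = 0` is a sum of six Lefschetz
  motives with a negative definite form (it is a rational surface; Hodge index theorem);
* `quartic`: the Jacobian of the curve `f(x, y) + z ^ 4 = 0` is isogenous to a product of three elliptic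
  curves, and the Rosati involution is positive;
* `elliptic`: the standard conjecture of Hodge type for the products of elliptic curves and the
  classes in `H^1(E_1) ⊗ ⋯ ⊗ H^1(E_n)` (Spiess, Milne). -/
structure KnownFacts (T : Hypersurfaces C) : Prop where
  surface : ∀ {σ : Type} [Finite σ] (g : MvPolynomial σ k), IsNonsingularForm 3 g →
    Nat.card σ = 3 → T.pr 3 (addPow 3 g) ∈ cone C IsPoint (T.V (addPow 3 g))
  quartic : ∀ {σ : Type} [Finite σ] (f : MvPolynomial σ k), IsNonsingularForm 4 f →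
    Nat.card σ = 2 → T.pr 4 (addPow 4 f) ∈ cone C (IsElliptic T) (T.V (addPow 4 f))
  elliptic : ∀ (Y : 𝒱.Obj) (δ : C.A (Y.prod Y)), IsElliptic T Y δ → IsPositive H Y δ

end hodge

section blocks

variable {k : Type u} [Field k]

/-- The conditions on the forms `g_0, …, g_r` in separate sets of variables: they are nonsingular
forms of degree `d` in at least one and at most `B` variables, and the sum `g_0 + ⋯ + g_r` has at
least three variables. -/
structure HasBlocks (d B : ℕ) {r : ℕ} {σ : Fin (r + 1) → Type} (g : ∀ l, MvPolynomial (σ l) k) :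
    Prop where
  finite : ∀ l, Finite (σ l)
  nonempty : ∀ l, Nonempty (σ l)
  form : ∀ l, IsNonsingularForm d (g l)
  le : ∀ l, Nat.card (σ l) ≤ B
  three : 3 ≤ Nat.card (Σ l, σ l)

end blocks

end Pool.Agent.U926.HSI
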