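import Pool.Agent.U926.HS.Cone

/-!
# Positivity of the intersection numbers
-/

set_option autoImplicit false

open CategoryTheory AlgebraicGeometry MvPolynomial

universe u v w

namespace Pool.Agent.U926.HSI

open Pool.Agent.H914 Pool.Agent.H914.VarClass Pool.Agent.H914.VarClass.Obj Pool.Agent.W492.BB
  Pool.Agent.W550.Corr Pool.Agent.TH133 Pool.Agent.U926.HC

set_option linter.unusedSectionVars false

variable {k : Type u} [Field k] {𝒱 : VarClass k} {C : TheoryData.{u, v, 0} 𝒱 ℚ}
  [hC : IsChowProj C] {P : Pieces C} {X Y Z : 𝒱.Obj}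

include hC

/-- The degree of zero-cycles is preserved by push-forwards. -/
lemma hasDegree_push (f : X ⟶ Y) {w : C.A X} {q : ℚ} (hw : HasDegree C w q) :
    HasDegree C (C.push f w) q := by
  intro Z
  constructor
  · rw [C.base_fst, ← C.push_comp, prodMap_snd, Category.comp_id]
    exact (hw Z).1
  · rw [C.base_snd, ← C.push_comp, prodMap_fst, Category.comp_id]
    exact (hw Z).2

lemma hasDegree_smul {w : C.A X} {q : ℚ} (hw : HasDegree C w q) (r : ℚ) :
    HasDegree C (r • w) (r * q) := by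
  intro Z
  rw [map_smul, map_smul, map_smul, map_smul, (hw Z).1, (hw Z).2, smul_smul]
  exact ⟨rfl, rfl⟩

lemma hasDegree_add {w w' : C.A X} {q q' : ℚ} (hw : HasDegree C w q) (hw' : HasDegree C w' q') :
    HasDegree C (w + w') (q + q') := by
  intro Z
  rw [map_add, map_add, map_add, map_add, (hw Z).1, (hw Z).2, (hw' Z).1, (hw' Z).2, add_smul]
  exact ⟨rfl, rfl⟩

variable {K : Type w} [Field K] {H : WeilTheoryData.{u, v, w} C K} [hH : IsWeilProj H]

include hH

/-- **Positivity of the cones.** -/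
theorem cone_positive (hP : ∀ Y δ, P Y δ → IsPositive H Y δ) {ε : C.A (X.prod X)}
    (hε : ε ∈ cone C P X) {j : ℕ} (hj : X.dim = 2 * j) {x : C.A X} (hx : x ∈ C.gr X j) :
    ∃ q : ℚ, 0 ≤ (-1) ^ j * q ∧ HasDegree C (x * C.act ε x) q ∧
      (q = 0 → H.cl (C.act ε x) = 0) := by
  refine AddSubmonoid.closure_induction (motive := fun ε _ => ∃ q : ℚ, 0 ≤ (-1) ^ j * q ∧
    HasDegree C (x * C.act ε x) q ∧ (q = 0 → H.cl (C.act ε x) = 0)) ?_ ?_ ?_ hε
  · rintro ε ⟨Y, δ, n, r, a, hPY, hd, hr, ha, hδ, rfl⟩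
    obtain ⟨y, hy⟩ : ∃ y, y = C.act a x := ⟨_, rfl⟩
    have e1 : C.act (r • C.comp a (tp C a)) x = r • C.act (tp C a) y := by
      rw [hy, ← C.act_comp]
      exact LinearMap.map_smul₂ (actB C) r _ x
    obtain ⟨i, hi⟩ : ∃ i, j = n + i := ⟨j - n, by omega⟩
    have hYi : Y.dim = 2 * i := by omega
    have hyi : y ∈ C.gr Y i := by
      have h1 := act_gr ha hx
      have e2 : (j : ℤ) + ((X.dim : ℤ) - n) - X.dim = i := by omega
      rw [e2] at h1
      rwa [hy]
    have hyδ : C.act δ y = y := by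
      rw [hy, ← C.act_comp, hδ]
    rw [e1]
    have hxy : ∀ s : ℚ, HasDegree C (y * y) s → HasDegree C (x * C.act (tp C a) y) s := by
      intro s hs
      have h1 : x * C.act (tp C a) y ∈ C.gr X X.dim := by
        have h2 := C.mul_mem hx (act_gr (tp_mem C ha) hyi)
        have e2 : (j : ℤ) + (i + ((X.dim : ℤ) - n) - Y.dim) = X.dim := by omega
        rwa [e2] at h2
      have h2 : a * C.pull (fst X Y) x * C.pull (snd X Y) y ∈
          C.gr (X.prod Y) (X.prod Y).dim := by
        have h3 := C.mul_mem (C.mul_mem ha (C.pull_mem (fst X Y) hx)) (C.pull_mem (snd X Y) hyi)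
        have e2 : (X.dim : ℤ) - n + j + i = ((X.prod Y).dim : ℕ) := by
          rw [dim_prod]; push_cast; omega
        rwa [e2] at h3
      obtain ⟨s', hs'⟩ := exists_hasDegree h2
      have e3 : x * C.act (tp C a) y =
          C.push (fst X Y) (a * C.pull (fst X Y) x * C.pull (snd X Y) y) := by
        rw [act_tp, ← C.proj_left, ← mul_assoc, ch_comm C (C.pull (fst X Y) x) a]
      have e4 : y * y = C.push (snd X Y) (a * C.pull (fst X Y) x * C.pull (snd X Y) y) := by
        rw [C.proj_right]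
        conv_lhs => rw [hy]
        rw [hy]
        rfl
      have h4 := hasDegree_push (snd X Y) hs'
      rw [← e4] at h4
      have h5 : s' = s := hasDegree_unique H h4 hs
      rw [e3, ← h5]
      exact hasDegree_push (fst X Y) hs'
    by_cases h0 : H.cl y = 0
    · refine ⟨0, by rw [mul_zero], ?_, fun _ => ?_⟩
      · have h1 : HasDegree C (y * y) 0 := hasDegree_zero_of_cl H (by
          have h2 := C.mul_mem hyi hyi
          have e2 : (i : ℤ) + i = Y.dim := by omega
          rwa [e2] at h2) (by rw [map_mul, h0, mul_zero])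
        have h2 := hasDegree_smul (hxy 0 h1) r
        rw [mul_smul_comm]
        rwa [mul_zero] at h2
      · have h1 : H.cl (C.act (tp C a) y) = 0 := by
          rw [cl_act, h0, H.act_map_zero]
        have h2 : H.cl (r • C.act (tp C a) y) = H.cl (r • (1 : C.A X)) *
            H.cl (C.act (tp C a) y) := by
          rw [← map_mul, smul_mul_assoc, one_mul]
        rw [h2, h1, mul_zero]
    · obtain ⟨s, hs, hs'⟩ := hP Y δ hPY i y hYi hyi hyδ h0
      have h1 := sign_mul hr hs
      rw [← hi] at h1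
      refine ⟨r * s, h1.le, ?_, fun h2 => ?_⟩
      · rw [mul_smul_comm]
        exact hasDegree_smul (hxy s hs') r
      · rw [h2, mul_zero] at h1
        exact absurd h1 (lt_irrefl _)
  · refine ⟨0, by rw [mul_zero], ?_, fun _ => ?_⟩
    · rw [C.act_zero, mul_zero]
      exact hasDegree_zero
    · rw [C.act_zero, map_zero]
  · rintro ε ε' _ _ ⟨q, hq, hd, h0⟩ ⟨q', hq', hd', h0'⟩
    refine ⟨q + q', by rw [mul_add]; exact add_nonneg hq hq', ?_, fun h => ?_⟩
    · rw [C.act_add, mul_add]
      exact hasDegree_add hd hd'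
    · have h1 : (-1 : ℚ) ^ j * q + (-1) ^ j * q' = 0 := by rw [← mul_add, h, mul_zero]
      have h2 : (-1 : ℚ) ^ j * q = 0 := by linarith
      have h3 : (-1 : ℚ) ^ j * q' = 0 := by linarith
      have h4 : ((-1 : ℚ) ^ j) ≠ 0 := pow_ne_zero _ (by norm_num)
      rw [C.act_add, map_add, h0 ((mul_eq_zero.1 h2).resolve_left h4),
        h0' ((mul_eq_zero.1 h3).resolve_left h4), add_zero]

end Pool.Agent.U926.HSI
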