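import Pool.Agent.U926.HS.Pos
import Pool.Agent.U926.SF.Sums

/-!
# Hypersurfaces `g_0 + ⋯ + g_r = 0`: polarised decompositions
-/

set_option autoImplicit false

open CategoryTheory AlgebraicGeometry MvPolynomial

universe u v w

namespace Pool.Agent.U926.HSI

open Pool.Agent.H914 Pool.Agent.H914.VarClass Pool.Agent.H914.VarClass.Obj Pool.Agent.W492.BB
  Pool.Agent.W550.Corr Pool.Agent.TH133 Pool.Agent.U926.HC Pool.Agent.U926.SF

set_option linter.unusedSectionVars false

lemma isNonsingularForm_pow' {k : Type u} [Field k] {d : ℕ} (hd : 2 ≤ d) (hk : (d : k) ≠ 0) :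
    IsNonsingularForm d (powForm k d) := by
  refine ⟨?_, fun x hx => ?_⟩
  · have h1 := (isHomogeneous_X k ()).pow d
    rwa [one_mul] at h1
  · have h1 := hx ()
    rw [powForm, pderiv_pow, pderiv_X_self, mul_one, map_mul, map_natCast, map_pow,
      eval_X] at h1
    have h2 : x () = 0 := by
      rcases mul_eq_zero.1 h1 with h2 | h2
      · exact absurd h2 hk
      · exact pow_eq_zero_iff (by omega) |>.1 h2
    funext i
    exact h2

variable {k : Type u} [Field k] {𝒱 : VarClass k} {C : TheoryData.{u, v, 0} 𝒱 ℚ}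

/-- The form `g` of degree `d` is good: it is nonsingular, and the primitive projectors of the
hypersurfaces `g = 0` (if it has at least three variables) and `g(x) + z ^ d = 0` (if it has at least
two variables) lie in the cones of `P`. -/
structure IsGood (T : Hypersurfaces C) (P : Pieces C) (d : ℕ)
    {σ : Type} (g : MvPolynomial σ k) : Prop where
  form : IsNonsingularForm d g
  base : 3 ≤ Nat.card σ → T.pr d g ∈ cone C P (T.V g)
  cone : 2 ≤ Nat.card σ → T.pr d (addPow d g) ∈ cone C P (T.V (addPow d g))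

/-- The assumptions on the set `P` of pairs. -/
structure IsClosed (T : Hypersurfaces C) (P : Pieces C) (d : ℕ) : Prop where
  point : ∀ Y : 𝒱.Obj, Y.dim = 0 → P Y (dg C Y)
  prod : ∀ Y Z δ ε, P Y δ → P Z ε → P (Y.prod Z) (tens C δ ε)
  binary : ∀ {σ : Type} [Finite σ] (f : MvPolynomial σ k), IsNonsingularForm d f →
    Nat.card σ = 2 → T.pr d (addPow d f) ∈ cone C P (T.V (addPow d f))

variable [hC : IsChowProj C] {P : Pieces C} {T : Hypersurfaces C} {d : ℕ} {K : Type w} [Field K]
  {H : WeilTheoryData.{u, v, w} C K}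

include hC

lemma iso_mem_cone {ρ σ : Type} {F : MvPolynomial ρ k} {f : MvPolynomial σ k}
    (hi : IsIsomorphic T F f) (hdim : (T.V F).dim = (T.V f).dim)
    (hf : T.pr d f ∈ HSI.cone C P (T.V f)) : T.pr d F ∈ HSI.cone C P (T.V F) := by
  obtain ⟨φ, ψ, h1, h2, h3⟩ := hi
  have hb : C.graph φ ∈ C.gr ((T.V F).prod (T.V f)) (((T.V F).dim : ℤ) - (0 : ℕ)) := by
    have h := C.push_mem (Obj.lift (𝟙 (T.V F)) φ) (C.one_mem _)
    have e1 : (0 : ℤ) + 1 * ((((T.V F).prod (T.V f)).dim : ℤ) - ((T.V F).dim : ℤ)) =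
        ((T.V F).dim : ℤ) - (0 : ℕ) := by
      rw [dim_prod]; push_cast; rw [hdim]; ring
    rwa [e1] at h
  have h4 := pull_mem_cone (X := T.V F) (n := 0) (q := 1) hf (by norm_num) (by omega) hb
  rw [one_smul] at h4
  have h5 := iso_comp (d := d) h1 h2 h3 hdim
  change C.comp (C.graph φ) (C.comp (prim C d (T.h f)) (tp C (C.graph φ))) ∈ _ at h4
  rw [h5] at h4
  exact h4

/-- The sum of two good forms with at least two variables. -/
lemma dominated_mem_cone (hT : IsHypersurfaceTheory H T d) (hd : 2 ≤ d) (hk : (d : k) ≠ 0)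
    (hP : IsClosed T P d) {ρ σ τ : Type} [Finite ρ] [Finite σ] [Finite τ] (e : ρ ≃ σ ⊕ τ)
    {F : MvPolynomial ρ k} {f : MvPolynomial σ k} {g : MvPolynomial τ k}
    (h : rename e F = sumForm f g) (hf : IsGood T P d f) (hg : IsGood T P d g)
    (hτ : 2 ≤ Nat.card τ) (hle : Nat.card τ ≤ Nat.card σ) :
    T.pr d F ∈ HSI.cone C P (T.V F) := by
  obtain ⟨q, Ψ, m, q', z, hq, hΨd, hΨl, hz, hdg⟩ := hT.dominated e F f g h hf.form hg.form hτ hle
  have hpow := isNonsingularForm_pow' (k := k) (d := d) hd hk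
  have hρ : Nat.card ρ = Nat.card σ + Nat.card τ := by rw [Nat.card_congr e, Nat.card_sum]
  have hσ1 : Nat.card (σ ⊕ Unit) = Nat.card σ + 1 := card_sum_unit
  have hτ1 : Nat.card (τ ⊕ Unit) = Nat.card τ + 1 := card_sum_unit
  have hF' : IsNonsingularForm d F := by
    rw [of_rename e h]
    exact (hf.form.sumForm hg.form).rename e.symm
  have hEF := hT.emb F hF' (by omega)
  have hEF' := hEF.dim
  have hEf' : (T.V (addPow d f)).dim + 2 = Nat.card (σ ⊕ Unit) :=
    (hT.emb _ (hf.form.sumForm hpow) (by omega)).dim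
  have hEg' : (T.V (addPow d g)).dim + 2 = Nat.card (τ ⊕ Unit) :=
    (hT.emb _ (hg.form.sumForm hpow) (by omega)).dim
  have hkill : ∀ l : ℕ, C.act (T.pr d F) (T.h F ^ l) = 0 := fun l =>
    act_prim_pow hEF.h_deg (by omega) hEF.h_top l
  have hπd : T.pr d F ∈ C.gr _ (T.V F).dim := prim_gr hEF.h_deg d
  have hπt : tp C (T.pr d F) = T.pr d F := tp_prim _ d
  have hidem : T.pr d F = C.comp (T.pr d F) (C.comp (dg C (T.V F)) (T.pr d F)) := by
    rw [dg_comp]
    exact (prim_comp hEF.h_deg (by omega) hEF.h_top).symm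
  have hdg' : dg C (T.V F) = q • C.comp (tp C Ψ) Ψ + ∑ i, q' i • z i := hdg
  rw [hidem, hdg', add_comp, comp_add, sum_comp, comp_sum]
  refine AddSubmonoid.add_mem _ ?_ (AddSubmonoid.sum_mem _ fun i _ => ?_)
  · refine leg_mem (n := 0) (tens_mem_cone hP.prod (hf.cone (by omega)) (hg.cone hτ)) hπt hπd
      (linear₂_comp hΨl hkill) ?_ ?_ ?_
    · rw [Nat.cast_zero, add_zero]
      exact hΨd
    · rw [dim_prod]
      omega
    · rw [pow_zero, one_mul]
      exact hq
  · obtain ⟨hqi, hzi⟩ := hz i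
    have hqi' : 0 < (-1 : ℚ) ^ 1 * q' i := by
      rw [pow_one]
      linarith
    cases hzi with
    | join Γ h3 h4 h5 h6 h7 =>
      rw [h7]
      have hEf := (hT.emb f hf.form h3).dim
      have hEg := (hT.emb g hg.form h4).dim
      refine leg_mem (n := 1) (tens_mem_cone hP.prod (hf.base h3) (hg.base h4)) hπt hπd
        (linear₂_comp h6 hkill) ?_ ?_ hqi'
      · rw [Nat.cast_one]
        exact h5
      · rw [dim_prod]
        omega
    | left Γ h3 h4 h5 h6 h7 =>
      rw [h7]
      have hEf := (hT.emb f hf.form h3).dim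
      refine leg_mem (n := 1) (hf.base h3) hπt hπd (linear₁_comp h6 hkill) ?_ ?_ hqi'
      · rw [Nat.cast_one]
        exact h5
      · omega
    | line Y Γ h3 h4 h5 h6 h7 =>
      rw [h7]
      refine leg_mem (n := 1) (self_mem_cone (hP.point Y h5) (dg_mem C Y) (dg_comp C _)
        (tp_dg C Y)) hπt hπd (dg_comp C _).symm ?_ ?_ hqi'
      · rw [Nat.cast_one, h5, Nat.cast_zero, zero_add]
        exact h6
      · omega

/-- The sum of two good forms. -/
lemma sum_mem_cone (hT : IsHypersurfaceTheory H T d) (hd : 2 ≤ d) (hk : (d : k) ≠ 0)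
    (hP : IsClosed T P d) {ρ σ τ : Type} [Finite ρ] [Finite σ] [Finite τ] (e : ρ ≃ σ ⊕ τ)
    {F : MvPolynomial ρ k} {f : MvPolynomial σ k} {g : MvPolynomial τ k}
    (h : rename e F = sumForm f g) (hf : IsGood T P d f) (hg : IsGood T P d g)
    (hσ : 1 ≤ Nat.card σ) (hτ : 1 ≤ Nat.card τ) (hρ : 3 ≤ Nat.card ρ) :
    T.pr d F ∈ HSI.cone C P (T.V F) := by
  have hpow := isNonsingularForm_pow' (k := k) (d := d) hd hk
  have hcard : Nat.card ρ = Nat.card σ + Nat.card τ := by rw [Nat.card_congr e, Nat.card_sum]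
  have hσ1 : Nat.card (σ ⊕ Unit) = Nat.card σ + 1 := card_sum_unit
  have hτ1 : Nat.card (τ ⊕ Unit) = Nat.card τ + 1 := card_sum_unit
  have hF' : IsNonsingularForm d F := by
    rw [of_rename e h]
    exact (hf.form.sumForm hg.form).rename e.symm
  have hEF := (hT.emb F hF' hρ).dim
  have h' : rename (e.trans (Equiv.sumComm σ τ)) F = sumForm g f := by
    have e1 : rename (e.trans (Equiv.sumComm σ τ)) F =
        rename (Equiv.sumComm σ τ) (rename e F) := by
      rw [rename_rename]
      rfl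
    rw [e1, h]
    simp only [sumForm, map_add, rename_rename]
    rw [_root_.add_comm]
    rfl
  rcases hτ.eq_or_lt with h1 | h1
  · -- one variable `y`
    have hE2 : (T.V (addPow d f)).dim + 2 = Nat.card (σ ⊕ Unit) :=
      (hT.emb _ (hf.form.sumForm hpow) (by omega)).dim
    exact iso_mem_cone (hT.scale e F f g h hf.form hg.form (by omega) h1.symm) (by omega)
      (hf.cone (by omega))
  rcases hσ.eq_or_lt with h2 | h2
  · have hE2 : (T.V (addPow d g)).dim + 2 = Nat.card (τ ⊕ Unit) :=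
      (hT.emb _ (hg.form.sumForm hpow) (by omega)).dim
    exact iso_mem_cone (hT.scale _ F g f h' hg.form hf.form (by omega) h2.symm) (by omega)
      (hg.cone (by omega))
  rcases le_total (Nat.card τ) (Nat.card σ) with h3 | h3
  · exact dominated_mem_cone hT hd hk hP e h hf hg h1 h3
  · exact dominated_mem_cone hT hd hk hP _ h' hg hf h2 h3

/-- `g(x) + z ^ d` is good. -/
lemma IsGood.addPow (hT : IsHypersurfaceTheory H T d) (hd : 2 ≤ d) (hk : (d : k) ≠ 0)
    (hP : IsClosed T P d) {τ : Type} [Finite τ] {g : MvPolynomial τ k} (hg : IsGood T P d g)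
    (hτ : 1 ≤ Nat.card τ) : IsGood T P d (addPow d g) := by
  have hp := isNonsingularForm_pow' (k := k) (d := d) hd hk
  have hτ1 : Nat.card (τ ⊕ Unit) = Nat.card τ + 1 := card_sum_unit
  refine ⟨hg.form.sumForm hp, fun h3 => hg.cone (by omega), fun _ => ?_⟩
  rcases hτ.eq_or_lt with h1 | h1
  · exact hP.binary _ (hg.form.sumForm hp) (by omega)
  · let B : MvPolynomial (Unit ⊕ Unit) k := HC.addPow d (powForm k d)
    have hcB : Nat.card (Unit ⊕ Unit) = 2 := by rw [card_sum_unit, Nat.card_unique]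
    have hB : IsNonsingularForm d B := hp.sumForm hp
    have e1 : rename ((Equiv.sumCongr (Equiv.refl (τ ⊕ Unit)) (Equiv.refl Unit)).trans
        (Equiv.sumAssoc τ Unit Unit)) (HC.addPow d (HC.addPow d g)) = sumForm g B :=
      rename_addPow d (Equiv.refl _) (rename_refl' _)
    refine sum_mem_cone hT hd hk hP _ e1 hg ⟨hB, fun h3 => by omega, fun _ =>
      hP.binary B hB hcB⟩ hτ (by omega) ?_
    rw [card_sum_unit, card_sum_unit]
    omega

lemma IsGood.renamed (hT : IsHypersurfaceTheory H T d) (hd : 2 ≤ d) (hk : (d : k) ≠ 0)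
    {ρ σ : Type} [Finite ρ] [Finite σ]
    (e : ρ ≃ σ) {F : MvPolynomial ρ k} {f : MvPolynomial σ k} (h : MvPolynomial.rename e F = f)
    (hf : IsGood T P d f) : IsGood T P d F := by
  have hp := isNonsingularForm_pow' (k := k) (d := d) hd hk
  have hc : Nat.card ρ = Nat.card σ := Nat.card_congr e
  have hσ1 : Nat.card (σ ⊕ Unit) = Nat.card σ + 1 := card_sum_unit
  have hρ1 : Nat.card (ρ ⊕ Unit) = Nat.card ρ + 1 := card_sum_unit
  have hF : IsNonsingularForm d F := by
    rw [of_rename e h]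
    exact hf.form.rename e.symm
  refine ⟨hF, fun h3 => ?_, fun h2 => ?_⟩
  · have h4 := (hT.emb F hF h3).dim
    have h5 := (hT.emb f hf.form (by omega)).dim
    exact iso_mem_cone (hT.iso e F f h hf.form (by omega)) (by omega) (hf.base (by omega))
  · have h4 : (T.V (HC.addPow d F)).dim + 2 = Nat.card (ρ ⊕ Unit) :=
      (hT.emb _ (hF.sumForm hp) (by omega)).dim
    have h5 : (T.V (HC.addPow d f)).dim + 2 = Nat.card (σ ⊕ Unit) :=
      (hT.emb _ (hf.form.sumForm hp) (by omega)).dim
    refine iso_mem_cone (hT.iso (Equiv.sumCongr e (Equiv.refl Unit)) (HC.addPow d F)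
      (HC.addPow d f) ?_ (hf.form.sumForm hp) (by omega)) (by omega) (hf.cone (by omega))
    rw [← h]
    simp only [HC.addPow, sumForm, map_add, rename_rename, powForm, map_pow, rename_X]
    rfl

/-- The sum of two good forms in separate variables is good. -/
lemma IsGood.add (hT : IsHypersurfaceTheory H T d) (hd : 2 ≤ d) (hk : (d : k) ≠ 0)
    (hP : IsClosed T P d) {ρ σ τ : Type} [Finite ρ] [Finite σ] [Finite τ] (e : ρ ≃ σ ⊕ τ)
    {F : MvPolynomial ρ k} {f : MvPolynomial σ k} {g : MvPolynomial τ k}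
    (h : MvPolynomial.rename e F = sumForm f g) (hf : IsGood T P d f) (hg : IsGood T P d g)
    (hσ : 1 ≤ Nat.card σ) (hτ : 1 ≤ Nat.card τ) : IsGood T P d F := by
  have hp := isNonsingularForm_pow' (k := k) (d := d) hd hk
  have hF' : IsNonsingularForm d F := by
    rw [of_rename e h]
    exact (hf.form.sumForm hg.form).rename e.symm
  have hcard : Nat.card ρ = Nat.card σ + Nat.card τ := by rw [Nat.card_congr e, Nat.card_sum]
  have h4 : Nat.card (τ ⊕ Unit) = Nat.card τ + 1 := card_sum_unit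
  have h5 : Nat.card (ρ ⊕ Unit) = Nat.card ρ + 1 := card_sum_unit
  exact ⟨hF', fun h3 => sum_mem_cone hT hd hk hP e h hf hg hσ hτ h3, fun _ =>
    sum_mem_cone hT hd hk hP _ (rename_addPow d e h) hf (hg.addPow hT hd hk hP hτ) hσ
      (by omega) (by omega)⟩

/-- The sum of good forms in separate variables is good. -/
theorem isGood_sumForms (hT : IsHypersurfaceTheory H T d) (hd : 2 ≤ d) (hk : (d : k) ≠ 0)
    (hP : IsClosed T P d) : ∀ {r : ℕ} {σ : Fin (r + 1) → Type}
    (_ : ∀ l, Finite (σ l)) (_ : ∀ l, Nonempty (σ l)) (g : ∀ l, MvPolynomial (σ l) k)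
    (_ : ∀ l, IsGood T P d (g l)), IsGood T P d (sumForms g) := by
  intro r
  induction r with
  | zero =>
    intro σ hfin hne g hg
    have hbij : Function.Bijective (Sigma.mk 0 : σ 0 → Σ l, σ l) := ⟨sigma_mk_injective, by
      rintro ⟨l, x⟩
      obtain rfl : l = 0 := Fin.fin_one_eq_zero l
      exact ⟨x, rfl⟩⟩
    have := hfin
    refine (hg 0).renamed hT hd hk (Equiv.ofBijective _ hbij).symm ?_
    rw [sumForms, Fin.sum_univ_one, rename_rename]
    have e1 : ⇑(Equiv.ofBijective _ hbij).symm ∘ Sigma.mk 0 = id := by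
      funext x
      exact (Equiv.ofBijective _ hbij).symm_apply_apply x
    rw [e1, rename_id, AlgHom.id_apply]
  | succ r ih =>
    intro σ hfin hne g hg
    obtain ⟨e, he⟩ := sumForms_succ g
    have := hfin
    refine IsGood.add hT hd hk hP e he (hg _) (ih (fun l => hfin _) (fun l => hne _)
      (fun l => g l.castSucc) fun l => hg _) ?_ ?_
    · have := hne (Fin.last (r + 1))
      exact Nat.card_pos
    · have : Nonempty (Σ l : Fin (r + 1), σ l.castSucc) := ⟨⟨0, (hne _).some⟩⟩
      exact Nat.card_pos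

end Pool.Agent.U926.HSI
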